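import Pool.Agent.S08406

set_option autoImplicit false

namespace Pool.Agent.Results.MP_a09a01_co.OrientedNotNice

open Pool.Agent.S08406

/-- An oriented graph on the vertex set `Fin m`: no loops and no directed 2-cycles. -/
structure OGraph (m : ℕ) where
  /-- `Arc a b`: there is an arc from `a` to `b`. -/
  Arc : Fin m → Fin m → Prop
  asymm : ∀ a b, Arc a b → ¬ Arc b a

/-- The underlying undirected graph. -/
def OGraph.under {m : ℕ} (D : OGraph m) : SimpleGraph (Fin m) where
  Adj a b := D.Arc a b ∨ D.Arc b a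
  symm := ⟨fun _ _ h => h.symm⟩
  loopless := ⟨fun a h => by
    rcases h with h | h
    · exact D.asymm a a h h
    · exact D.asymm a a h h⟩

/-- A tournament: any two distinct vertices are joined by an arc. -/
def OGraph.IsTournament {m : ℕ} (D : OGraph m) : Prop :=
  ∀ a b : Fin m, a ≠ b → D.Arc a b ∨ D.Arc b a

/-- An oriented forest: the underlying graph has no cycle. -/
def OGraph.IsOrientedForest {m : ℕ} (D : OGraph m) : Prop := D.under.IsAcyclic

/-- The arcs of `D` can be coloured with `k` colours such that no colour class contains a copy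
(as a subgraph, not necessarily induced) of a member of the family `F`. -/
def HasFreeColouring {ι : Type} {m : ι → ℕ} (F : ∀ i, OGraph (m i)) (k : ℕ) {n : ℕ}
    (D : OGraph n) : Prop :=
  ∃ c : Fin n → Fin n → Fin k, ∀ i : ι, ¬ ∃ (f : Fin (m i) ↪ Fin n) (col : Fin k),
    ∀ a b : Fin (m i), (F i).Arc a b → D.Arc (f a) (f b) ∧ c (f a) (f b) = col

/-- The numbers of vertices of tournaments which have an `F`-free `k`-colouring. -/
def P {ι : Type} {m : ι → ℕ} (F : ∀ i, OGraph (m i)) (k : ℕ) : Set ℕ :=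
  {n | ∃ T : OGraph n, T.IsTournament ∧ HasFreeColouring F k T}

/-- The chromatic numbers of oriented graphs which have an `F`-free `k`-colouring. -/
def Q {ι : Type} {m : ι → ℕ} (F : ∀ i, OGraph (m i)) (k : ℕ) : Set ℕ :=
  {g | ∃ (n : ℕ) (D : OGraph n), HasFreeColouring F k D ∧ D.under.chromaticNumber = (g : ℕ∞)}

/-! ### The family -/

/-- All oriented graphs on 190 vertices whose underlying graph is bad. -/
abbrev I : Type := {H : OGraph 190 // Bad H.under}

theorem OGraph.arc_injective {m : ℕ} :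
    Function.Injective (fun D : OGraph m => D.Arc) := by
  rintro ⟨A, hA⟩ ⟨B, hB⟩ h
  have : A = B := h
  subst this
  rfl

instance : Finite I := by
  have h : Finite (OGraph 190) := Finite.of_injective _ OGraph.arc_injective
  infer_instance

/-- The family. -/
def F : ∀ _ : I, OGraph 190 := fun i => i.1

/-- The colour class. -/
def cl {n k : ℕ} (D : OGraph n) (c : Fin n → Fin n → Fin k) (i : Fin k) :
    SimpleGraph (Fin n) where
  Adj a b := (D.Arc a b ∧ c a b = i) ∨ (D.Arc b a ∧ c b a = i)
  symm := ⟨fun _ _ h => h.symm⟩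
  loopless := ⟨fun a h => by
    rcases h with h | h
    · exact D.asymm a a h.1 h.1
    · exact D.asymm a a h.1 h.1⟩

/-- In a free colouring of an oriented graph with at least 190 vertices no class is bad. -/
theorem cl_not_bad {n k : ℕ} (hn : 190 ≤ n) (D : OGraph n) (c : Fin n → Fin n → Fin k)
    (hc : ∀ i : I, ¬ ∃ (f : Fin 190 ↪ Fin n) (col : Fin k),
      ∀ a b : Fin 190, (F i).Arc a b → D.Arc (f a) (f b) ∧ c (f a) (f b) = col)
    (i : Fin k) : ¬ Bad (cl D c i) := by
  intro hB
  obtain ⟨f, hf⟩ := Bad.local (cl D c i) (by rw [Fintype.card_fin]; exact hn) hB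
  let E : OGraph 190 := ⟨fun a b => D.Arc (f a) (f b) ∧ c (f a) (f b) = i,
    fun a b h h' => D.asymm _ _ h.1 h'.1⟩
  have hE : E.under = (cl D c i).comap f := by
    ext a b
    exact Iff.rfl
  exact hc ⟨E, hE ▸ hf⟩ ⟨f, i, fun a b h => h⟩

/-- If no class is bad then the colouring is free. -/
theorem free_of_not_bad {n k : ℕ} (D : OGraph n) (c : Fin n → Fin n → Fin k)
    (h : ∀ i : Fin k, ¬ Bad (cl D c i)) : HasFreeColouring F k D := by
  refine ⟨c, ?_⟩
  rintro ⟨E, hE⟩ ⟨f, col, hf⟩
  refine h col (hE.mono f ?_)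
  intro a b hab
  rcases hab with hab | hab
  · exact Or.inl (hf a b hab)
  · exact Or.inr (hf b a hab)

theorem P_le {k n : ℕ} (hk : 190 ≤ 5 * k + 2) (h : n ∈ P F k) : n ≤ 5 * k + 1 := by
  classical
  by_contra hcon
  have hn : 5 * k + 2 ≤ n := by omega
  obtain ⟨T, hT, c, hc⟩ := h
  have hcl := cl_not_bad (by omega) T c hc
  have h0 : 0 < n := by omega
  let z : Fin n := ⟨0, h0⟩
  let c' : Sym2 (Fin n) → Fin k := Sym2.lift ⟨fun a b =>
    if T.Arc a b then c a b else if T.Arc b a then c b a else c z z, fun a b => by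
      by_cases h1 : T.Arc a b
      · have h2 := T.asymm _ _ h1
        simp [h1, h2]
      · by_cases h2 : T.Arc b a
        · simp [h1, h2]
        · simp [h1, h2]⟩
  refine upper hn c' ?_
  intro i hi
  refine hcl i (hi.mono (Function.Embedding.refl _) ?_)
  intro a b hab
  obtain ⟨h1, h2⟩ := hab
  simp only [c', Sym2.lift_mk] at h2
  rcases hT a b h1 with h3 | h3
  · rw [if_pos h3] at h2
    exact Or.inl ⟨h3, h2⟩
  · rw [if_neg (T.asymm _ _ h3), if_pos h3] at h2
    exact Or.inr ⟨h3, h2⟩

theorem P_nonempty (k : ℕ) (hk : 1 ≤ k) : (1 : ℕ) ∈ P F k := by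
  refine ⟨⟨fun _ _ => False, fun _ _ h => h.elim⟩, ?_, ?_⟩
  · intro a b h
    exact absurd (Subsingleton.elim a b) h
  · refine ⟨fun _ _ => ⟨0, hk⟩, ?_⟩
    rintro i ⟨f, -⟩
    have := Fintype.card_le_of_embedding f
    simp at this

/-- The bound for the chromatic number. -/
theorem colorable_of_cover {n : ℕ} (G : SimpleGraph (Fin n)) (U : Finset (Fin n))
    (hU : ∀ a b, G.Adj a b → a ∈ U ∨ b ∈ U) : G.Colorable (U.card + 1) := by
  classical
  have e : U ≃ Fin U.card := U.equivFin
  refine ⟨SimpleGraph.Coloring.mk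
    (fun a => if h : a ∈ U then (e ⟨a, h⟩).castSucc else Fin.last _) ?_⟩
  intro a b hab heq
  by_cases ha : a ∈ U
  · by_cases hb : b ∈ U
    · rw [dif_pos ha, dif_pos hb] at heq
      have h1 := Fin.castSucc_injective _ heq
      have h2 := e.injective h1
      exact hab.ne (congrArg Subtype.val h2)
    · rw [dif_pos ha, dif_neg hb] at heq
      exact (Fin.castSucc_lt_last _).ne heq
  · by_cases hb : b ∈ U
    · rw [dif_neg ha, dif_pos hb] at heq
      exact (Fin.castSucc_lt_last _).ne heq.symm
    · rcases hU a b hab with h | h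
      · exact ha h
      · exact hb h

theorem cover_of_not_bad {V : Type} [Fintype V] [DecidableEq V] (H : SimpleGraph V)
    (h : ¬ Bad H) :
    ∃ S : Finset V, S.card ≤ 62 ∧ ∀ a b, H.Adj a b → a ∈ S ∨ b ∈ S := by
  classical
  by_cases hc : ∃ S : Finset V, S.card ≤ 5 ∧ ∀ a b, H.Adj a b → a ∈ S ∨ b ∈ S
  · obtain ⟨S, hS, h1⟩ := hc
    exact ⟨S, by omega, h1⟩
  · obtain ⟨h1, -⟩ := not_bad H h hc
    have hcard : H.edgeFinset.card ≤ 31 := by
      by_contra hcon
      apply h1
      obtain ⟨t, ht, htc⟩ := Finset.exists_subset_card_eq (show 32 ≤ H.edgeFinset.card by omega)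
      refine ⟨fun i => (t.equivFinOfCardEq htc).symm i, ?_, ?_⟩
      · intro i j hij
        exact (t.equivFinOfCardEq htc).symm.injective (Subtype.ext hij)
      · intro i
        have := ht ((t.equivFinOfCardEq htc).symm i).2
        simpa using this
    refine ⟨H.edgeFinset.biUnion (fun e => Finset.univ.filter (fun v => v ∈ e)), ?_, ?_⟩
    · refine le_trans Finset.card_biUnion_le ?_
      calc ∑ e ∈ H.edgeFinset, (Finset.univ.filter (fun v => v ∈ e)).card
          ≤ ∑ e ∈ H.edgeFinset, 2 := by
            refine Finset.sum_le_sum ?_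
            intro e _
            induction e using Sym2.ind with
            | _ a b =>
              refine le_trans (Finset.card_le_card (t := {a, b}) ?_) Finset.card_le_two
              intro v hv
              simpa using hv
        _ ≤ 62 := by
          rw [Finset.sum_const, smul_eq_mul]
          omega
    · intro a b hab
      left
      rw [Finset.mem_biUnion]
      refine ⟨s(a, b), ?_, ?_⟩
      · simpa using hab
      · simp

theorem Q_le {k g : ℕ} (h : g ∈ Q F k) : g ≤ 190 + (62 * k + 1) := by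
  classical
  obtain ⟨n, D, ⟨c, hc⟩, hg⟩ := h
  by_cases hn : 190 ≤ n
  · have hcl := cl_not_bad hn D c hc
    choose S hS1 hS2 using fun i => cover_of_not_bad _ (hcl i)
    have hcol := colorable_of_cover D.under (Finset.univ.biUnion S) (by
      intro a b hab
      rcases hab with hab | hab
      · rcases hS2 (c a b) a b (Or.inl ⟨hab, rfl⟩) with h | h
        · exact Or.inl (Finset.mem_biUnion.2 ⟨_, Finset.mem_univ _, h⟩)
        · exact Or.inr (Finset.mem_biUnion.2 ⟨_, Finset.mem_univ _, h⟩)
      · rcases hS2 (c b a) a b (Or.inr ⟨hab, rfl⟩) with h | h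
        · exact Or.inl (Finset.mem_biUnion.2 ⟨_, Finset.mem_univ _, h⟩)
        · exact Or.inr (Finset.mem_biUnion.2 ⟨_, Finset.mem_univ _, h⟩))
    have h1 : (Finset.univ.biUnion S).card ≤ 62 * k := by
      refine le_trans Finset.card_biUnion_le ?_
      refine le_trans (Finset.sum_le_sum (fun i _ => hS1 i)) ?_
      simp [mul_comm]
    have h2 := hcol.chromaticNumber_le
    rw [hg] at h2
    have h3 : g ≤ (Finset.univ.biUnion S).card + 1 := by exact_mod_cast h2
    omega
  · have h1 := (SimpleGraph.colorable_of_fintype D.under).chromaticNumber_le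
    rw [hg, Fintype.card_fin] at h1
    have h3 : g ≤ n := by exact_mod_cast h1
    omega

theorem Q_ge (p : ℕ) : ∃ g ∈ Q F (p + 1), 5 * (p + 1) + 2 ≤ g := by
  classical
  let D : OGraph (5 * p + 9) := ⟨fun a b => (G0 p).Adj a b ∧ a < b,
    fun a b h h' => absurd h.2 (not_lt.2 h'.2.le)⟩
  have hD : D.under = G0 p := by
    ext a b
    constructor
    · rintro (h | h)
      · exact h.1
      · exact h.1.symm
    · intro h
      rcases lt_trichotomy a b with h1 | h1 | h1
      · exact Or.inl ⟨h, h1⟩
      · exact absurd h1 h.ne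
      · exact Or.inr ⟨h.symm, h1⟩
  have hfree : HasFreeColouring F (p + 1) D := by
    refine free_of_not_bad D (fun a b => c0 p s(a, b)) ?_
    intro i hi
    refine cls0_not_bad p i (hi.mono (Function.Embedding.refl _) ?_)
    intro a b hab
    rcases hab with hab | hab
    · exact ⟨hab.1.1, hab.2⟩
    · refine ⟨hab.1.1.symm, ?_⟩
      have := hab.2
      simp only at this
      rw [Sym2.eq_swap]
      exact this
  obtain ⟨g, hg⟩ := ENat.ne_top_iff_exists.1
    (SimpleGraph.chromaticNumber_ne_top_iff_exists.2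
      ⟨_, SimpleGraph.colorable_of_fintype D.under⟩)
  refine ⟨g, ⟨_, D, hfree, hg.symm⟩, ?_⟩
  apply G0_colorable
  rw [← hD]
  have h1 : D.under.chromaticNumber ≤ (g : ℕ∞) := hg.symm.le
  exact SimpleGraph.chromaticNumber_le_iff_colorable.1 h1

/-- There is a finite family `F` of oriented graphs, one member of which is an oriented forest,
such that for every `k ≥ 40` both numbers `p_k(F)` and `q_k(F)` exist (the maxima are attained)
and `p_k(F) < q_k(F)`, so that `F` is not `k`-nice. -/
theorem result :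
    ∃ (ι : Type) (_ : Finite ι) (m : ι → ℕ) (F : ∀ i, OGraph (m i)),
      (∃ i, (F i).IsOrientedForest) ∧
      ∀ k : ℕ, 40 ≤ k → ∃ p q : ℕ, IsGreatest (P F k) p ∧ IsGreatest (Q F k) q ∧ p < q := by
  classical
  refine ⟨I, inferInstance, fun _ => 190, F, ?_, ?_⟩
  · let D : OGraph 190 := ⟨fun a b => M0.Adj a b ∧ a < b,
      fun a b h h' => absurd h.2 (not_lt.2 h'.2.le)⟩
    have hD : D.under = M0 := by
      ext a b
      constructor
      · rintro (h | h)
        · exact h.1
        · exact h.1.symm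
      · intro h
        rcases lt_trichotomy a b with h1 | h1 | h1
        · exact Or.inl ⟨h, h1⟩
        · exact absurd h1 h.ne
        · exact Or.inr ⟨h.symm, h1⟩
    refine ⟨⟨D, hD ▸ M0_bad⟩, ?_⟩
    show D.under.IsAcyclic
    rw [hD]
    exact M0_acyclic
  · intro k hk
    obtain ⟨p, rfl⟩ : ∃ p, k = p + 1 := ⟨k - 1, by omega⟩
    have hP : BddAbove (P F (p + 1)) := ⟨_, fun n hn => P_le (by omega) hn⟩
    have hQ : BddAbove (Q F (p + 1)) := ⟨_, fun n hn => Q_le hn⟩
    obtain ⟨g, hg, hg'⟩ := Q_ge p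
    have h1 := Nat.sSup_mem ⟨1, P_nonempty (p + 1) (by omega)⟩ hP
    have h2 := Nat.sSup_mem ⟨g, hg⟩ hQ
    refine ⟨sSup (P F (p + 1)), sSup (Q F (p + 1)), ⟨h1, fun n hn => le_csSup hP hn⟩,
      ⟨h2, fun n hn => le_csSup hQ hn⟩, ?_⟩
    have h3 := P_le (by omega) h1
    have h4 := le_csSup hQ hg
    omega

end Pool.Agent.Results.MP_a09a01_co.OrientedNotNice
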